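import Pool.Agent.Helper76.TC.Goals

/-! # Project TC, packet PE -/

set_option autoImplicit false

namespace Pool.Agent.Helper94.TC.PE

open Set Topology Pool.Agent.Helper50.CT Pool.Agent.Helper76.TC

theorem t : S_PE := by
  intro n S k x hS hJ
  obtain ⟨p, hp⟩ := hJ
  set g : ℝ → (Fin n → ℝ) := fun s => p.extend s - s • rv k with hg
  have hgc : Continuous g := (Path.continuous_extend p).sub (continuous_id.smul continuous_const)
  have h01 : g 0 = g 1 := by
    simp only [hg, Path.extend_zero, Path.extend_one]
    simp
  have hc : Continuous (g ∘ Int.fract) := ContinuousOn.comp_fract'' hgc.continuousOn h01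
  refine ⟨fun t => t • rv k + g (Int.fract t), ?_, ?_, ?_⟩
  · exact (continuous_id.smul continuous_const).add hc
  · intro t
    have h1 : t • rv k + g (Int.fract t) = rv (⌊t⌋ • k) + p.extend (Int.fract t) := by
      have h2 : rv (⌊t⌋ • k) = (⌊t⌋ : ℝ) • rv k := by
        funext i
        simp [rv]
      rw [h2]
      have h3 : t • rv k = (⌊t⌋ : ℝ) • rv k + Int.fract t • rv k := by
        rw [← add_smul, Int.floor_add_fract]
      rw [h3]
      simp only [hg]
      abel
    show t • rv k + g (Int.fract t) ∈ S
    rw [h1]
    apply hS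
    have h4 : Int.fract t ∈ Icc (0 : ℝ) 1 := ⟨Int.fract_nonneg t, (Int.fract_lt_one t).le⟩
    rw [Path.extend_apply p h4]
    exact hp _
  · intro t
    simp only [Int.fract_add_one]
    rw [add_smul, one_smul]
    abel

end Pool.Agent.Helper94.TC.PE
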